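import Pool.Agent.Helper44.CM.StmtsB5
import Pool.Agent.Helper29.MM.Stmts_B3

/-!
# Project MM, block B5, row APL: the uniform a priori estimate at level 3
-/

open MeasureTheory

namespace CM

lemma apl_H0_mono {n : ℕ} {a b : ℝ} {f : E n → ℝ} (hab : a ≤ b) (h : H0 a f) : H0 b f :=
  ⟨fun x => (h.1 x).trans hab, fun x y => (h.2 x y).trans
    (mul_le_mul_of_nonneg_right hab (Real.sqrt_nonneg _))⟩

lemma apl_HB_mono {n k : ℕ} {a b : ℝ} {f : E n → ℝ} (hab : a ≤ b) (h : HB k a f) : HB k b f :=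
  ⟨h.1, fun l hl => apl_H0_mono hab (h.2 l hl)⟩

lemma apl_H2_mono {n k : ℕ} {a b : ℝ} {f : E n → ℝ} (hab : a ≤ b) (h : H2 k a f) : H2 k b f :=
  ⟨h.1, fun i j => apl_HB_mono hab (h.2 i j)⟩

lemma apl_UB {n : ℕ} {K : ℝ} {M : Mt n} (h : ∀ i j, |M i j| ≤ K) (hK : 0 ≤ K) :
    UB (K * n) M := by
  intro v
  have h1 : ∀ i j, v i * M i j * v j ≤ K * (|v i| * |v j|) := by
    intro i j
    calc v i * M i j * v j ≤ |v i * M i j * v j| := le_abs_self _
      _ = |M i j| * (|v i| * |v j|) := by rw [abs_mul, abs_mul]; ring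
      _ ≤ K * (|v i| * |v j|) :=
        mul_le_mul_of_nonneg_right (h i j) (mul_nonneg (abs_nonneg _) (abs_nonneg _))
  have h2 : ∑ i, ∑ j, v i * M i j * v j ≤ K * (∑ i, |v i|) ^ 2 := by
    calc ∑ i, ∑ j, v i * M i j * v j ≤ ∑ i, ∑ j, K * (|v i| * |v j|) :=
          Finset.sum_le_sum fun i _ => Finset.sum_le_sum fun j _ => h1 i j
      _ = K * (∑ i, |v i|) ^ 2 := by
          rw [sq, Finset.sum_mul_sum, Finset.mul_sum]
          exact Finset.sum_congr rfl fun i _ => (Finset.mul_sum _ _ _).symm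
  have h3 : (∑ i, |v i|) ^ 2 ≤ (n : ℝ) * ∑ i, v i ^ 2 := by
    have := sq_sum_le_card_mul_sum_sq (s := (Finset.univ : Finset (Fin n))) (f := fun i => |v i|)
    simpa [sq_abs] using this
  calc ∑ i, ∑ j, v i * M i j * v j ≤ K * (∑ i, |v i|) ^ 2 := h2
    _ ≤ K * ((n : ℝ) * ∑ i, v i ^ 2) := mul_le_mul_of_nonneg_left h3 hK
    _ = K * n * ∑ i, v i ^ 2 := by ring

/-- Row APL. -/
theorem st_APL (h1 : ∀ n, StEVEN n) (h2 : ST_L2) (h3 : ST_COEF) (h4 : ST_HBINV) : ST_APL := by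
  intro n c K hc
  obtain ⟨C2, hC2⟩ := h2 n c K hc
  obtain ⟨K1, hK1⟩ := h3 n c K hc
  obtain ⟨K2, hK2⟩ := h4 n 3 c K hc
  set K3 : ℝ := max (max K1 1) K2 with hK3
  have hK3pos : 0 < K3 := lt_of_lt_of_le one_pos ((le_max_right K1 1).trans (le_max_left _ _))
  have hm : 0 < (max K1 1)⁻¹ := inv_pos.2 (lt_of_lt_of_le one_pos (le_max_right _ _))
  obtain ⟨A, hA0, hA⟩ := h1 n (max K1 1)⁻¹ (K3 * n) K3 C2 hm
  refine ⟨A, fun V hVe hV u r M N hue huM hur hrN => ?_⟩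
  -- regularity of V
  have hV5 : ContDiff ℝ 5 V := hV.bd.1
  have hV3 : ContDiff ℝ 3 V := hV5.of_le (by norm_num)
  have hHB : ∀ i j, HB 3 K (fun x => hess V x i j) := fun i j => hV.bd.2 i j
  have hHK : ∀ x i j, |hess V x i j| ≤ K := fun x i j => ((hHB i j).2 [] (by simp)).1 x
  have h3d : ∀ x (l : List (Fin n)), l.length = 3 → |pdl l V x| ≤ K := by
    intro x l hl
    match l, hl with
    | [a, b, e], _ => exact ((hHB b e).2 [a] (by simp)).1 x
  have hcoef : Coef K1 (tau V) := hK1 V hV3 hV.lo hHK h3d hV.far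
  have hm1 : max K1 1 = K1 := max_eq_left hcoef.K_ge
  have hK13 : K1 ≤ K3 := (le_max_left K1 1).trans (le_max_left _ _)
  have hHBt : ∀ i j, HB 3 K3 (fun x => tau V x i j) := fun i j =>
    apl_HB_mono (le_max_right _ _) (hK2 (hess V) hV.lo hHB i j)
  have hTOK : TOK (max K1 1)⁻¹ (K3 * n) K3 (tau V) := by
    refine ⟨fun x i j => (hcoef.symm x).apply j i, fun x => ?_, fun x => ?_, fun i j => ?_,
      fun x i j => ?_, fun x y i j => ?_⟩
    · rw [hm1]; exact hcoef.lo x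
    · exact apl_UB (fun i j => (hcoef.bd x i j).trans hK13) hK3pos.le
    · exact (hHBt i j).2 [] (by simp)
    · exact (hcoef.far x i j).trans (div_le_div_of_nonneg_right hK13 (Real.sqrt_nonneg _))
    · exact (hcoef.lip x y i j).trans (mul_le_mul_of_nonneg_right hK13 dist_nonneg)
  have hL2 : L2in C2 (tau V) := by
    intro w q Mw L hwe hwM hwq hwL
    exact hC2 V hV5 hVe hV.lo hHK ⟨K, hV.bd⟩ hV.gau w q Mw L hwe hwM hwq hwL
  have hN0 : 0 ≤ N := (abs_nonneg _).trans ((hrN.2 [] (by simp)).1 0)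
  have hAK : AK (tau V) 1 u = r := funext hur
  refine hA (tau V) hTOK hHBt hL2 u hue ⟨M, huM⟩ N hN0 ?_
  rw [hAK]; exact hrN

end CM
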